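import Mathlib

/-!
# Internal contextual grammars: suffix-closed selection versus selection by `n`-state automata

For every `n ≥ 2` there is a language generated by an internal contextual grammar with
suffix-closed regular selection languages that is not generated by any internal contextual
grammar whose selection languages are accepted by deterministic automata with at most `n` states.

The witness (letters `a = 0`, `b = 1`, `c = 2`, `d = 3`): the axiom is `a^(2n)`, the context
`(b, c)` is selected by `{a^i : i ≤ n}`, and the contexts `(b, d)`, `(d, c)` are selected by all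
words.
-/

namespace Pool.Agent.Results.MP_47ab97_lc.SufNotStateBounded

/-- Letters are natural numbers, words are finite lists of letters. -/
abbrev Word : Type := List ℕ

/-- `w` is a word over the finite alphabet `V`. -/
def Over (V : Finset ℕ) (w : Word) : Prop := ∀ x ∈ w, x ∈ V

/-- An internal contextual grammar with selection
`(V, {(S_1, C_1), …, (S_m, C_m)}, A)`: a finite alphabet `V`, finitely many pairs of a selection
language over `V` and a finite set of contexts over `V`, and a finite set of axioms over `V`. -/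
structure Grammar where
  /-- the alphabet -/
  V : Finset ℕ
  /-- the pairs `(S_i, C_i)` -/
  comps : List (Set Word × Finset (Word × Word))
  /-- the axioms -/
  axs : Finset Word
  sel_over : ∀ p ∈ comps, ∀ w ∈ p.1, Over V w
  ctx_over : ∀ p ∈ comps, ∀ q ∈ p.2, Over V q.1 ∧ Over V q.2
  axs_over : ∀ w ∈ axs, Over V w

/-- The derivation step: `x = x1 x2 x3`, `y = x1 u x2 v x3` with `x2 ∈ S_i`, `(u, v) ∈ C_i` for
some `i`. -/
def Grammar.Step (G : Grammar) (x y : Word) : Prop :=
  ∃ p ∈ G.comps, ∃ q ∈ p.2, ∃ x1 x2 x3 : Word,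
    x = x1 ++ x2 ++ x3 ∧ x2 ∈ p.1 ∧ y = x1 ++ q.1 ++ x2 ++ q.2 ++ x3

/-- The generated language: the words reachable from some axiom by zero or more steps. -/
def Grammar.lang (G : Grammar) : Set Word :=
  {w | ∃ a ∈ G.axs, Relation.ReflTransGen G.Step a w}

/-- A selection family: for each alphabet `V`, a collection of languages over `V`. -/
abbrev Family : Type := Finset ℕ → Set (Set Word)

/-- `IC(F)`: the languages generated by internal contextual grammars all of whose selection
languages belong to `F` (relative to the alphabet of the grammar). -/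
def IC (F : Family) : Set (Set Word) :=
  {L | ∃ G : Grammar, (∀ p ∈ G.comps, p.1 ∈ F G.V) ∧ L = G.lang}

/-- `REG^Z_n`: the languages over `V` accepted by a deterministic finite automaton (total
transition function) with at most `n` states. -/
def REGZ (n : ℕ) : Family := fun V =>
  {S | ∃ (Z : Type) (_ : Fintype Z) (M : DFA ℕ Z), Fintype.card Z ≤ n ∧
    S = {w | Over V w ∧ w ∈ M.accepts}}

/-- `SUF`: the suffix-closed regular languages over `V`. -/
def SUF : Family := fun V =>
  {S | (∃ n, S ∈ REGZ n V) ∧ ∀ x y : Word, x ++ y ∈ S → y ∈ S}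

/-! ### The witness grammar -/

/-- Abbreviation for `x^k`. -/
abbrev rep (k x : ℕ) : Word := List.replicate k x

/-- The alphabet `{a, b, c, d}`. -/
def V4 : Finset ℕ := {0, 1, 2, 3}

/-- The selection language `{a^i : i ≤ n}`. -/
def S1 (n : ℕ) : Set Word := {w | ∃ i ≤ n, w = rep i 0}

/-- All words over the alphabet. -/
def S2 : Set Word := {w | Over V4 w}

/-- The witness grammar. -/
def G0 (n : ℕ) : Grammar where
  V := V4
  comps := [(S1 n, {([1], [2])}), (S2, {([1], [3]), ([3], [2])})]
  axs := {rep (2 * n) 0}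
  sel_over := by
    intro p hp w hw
    simp only [List.mem_cons, List.not_mem_nil, or_false] at hp
    rcases hp with rfl | rfl
    · obtain ⟨i, _, rfl⟩ := hw
      intro x hx
      have := List.eq_of_mem_replicate hx
      subst this
      simp [V4]
    · exact hw
  ctx_over := by
    intro p hp q hq
    simp only [List.mem_cons, List.not_mem_nil, or_false] at hp
    rcases hp with rfl | rfl
    · simp only [Finset.mem_singleton] at hq
      subst hq
      simp [Over, V4]
    · simp only [Finset.mem_insert, Finset.mem_singleton] at hq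
      rcases hq with rfl | rfl
      · simp [Over, V4]
      · simp [Over, V4]
  axs_over := by
    intro w hw
    simp only [Finset.mem_singleton] at hw
    subst hw
    intro x hx
    have := List.eq_of_mem_replicate hx
    subst this
    simp [V4]

/-- The automaton counting the number of `a`'s up to `n`; `n + 1` is the dead state. -/
def M1 (n : ℕ) : DFA ℕ (Fin (n + 2)) where
  step := fun s x =>
    if x = 0 then ⟨min ((s : ℕ) + 1) (n + 1), by omega⟩ else ⟨n + 1, by omega⟩
  start := ⟨0, by omega⟩
  accept := {s | (s : ℕ) ≤ n}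

lemma M1_eval (n : ℕ) (w : Word) : ∀ s : Fin (n + 2),
    ((M1 n).evalFrom s w : ℕ) ≤ n ↔ ((s : ℕ) + w.length ≤ n ∧ w = rep w.length 0) := by
  induction w with
  | nil => intro s; simp [DFA.evalFrom]
  | cons x w ih =>
    intro s
    have h : (M1 n).evalFrom s (x :: w) = (M1 n).evalFrom ((M1 n).step s x) w := by
      simp [DFA.evalFrom]
    rw [h, ih]
    by_cases hx : x = 0
    · subst hx
      have e : (((M1 n).step s 0 : Fin (n + 2)) : ℕ) = min ((s : ℕ) + 1) (n + 1) := by
        simp [M1]
      rw [e]
      simp only [List.length_cons, rep, List.replicate_succ, List.cons.injEq, true_and]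
      constructor
      · rintro ⟨h1, h2⟩
        refine ⟨?_, h2⟩
        omega
      · rintro ⟨h1, h2⟩
        refine ⟨?_, h2⟩
        omega
    · have e : (((M1 n).step s x : Fin (n + 2)) : ℕ) = n + 1 := by
        simp [M1, hx]
      rw [e]
      simp only [List.length_cons, rep, List.replicate_succ, List.cons.injEq]
      constructor
      · rintro ⟨h1, h2⟩
        omega
      · rintro ⟨_, h2, _⟩
        exact absurd h2 hx

lemma S1_suf (n : ℕ) : S1 n ∈ SUF V4 := by
  refine ⟨⟨n + 2, Fin (n + 2), inferInstance, M1 n, by simp, ?_⟩, ?_⟩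
  · ext w
    simp only [S1, Set.mem_ofPred_eq, DFA.mem_accepts]
    have key : (M1 n).evalFrom (M1 n).start w ∈ (M1 n).accept ↔
        (w.length ≤ n ∧ w = rep w.length 0) := by
      have := M1_eval n w (M1 n).start
      have e0 : (((M1 n).start : Fin (n + 2)) : ℕ) = 0 := rfl
      rw [e0, zero_add] at this
      rw [← this]
      rfl
    have key' : (M1 n).eval w ∈ (M1 n).accept ↔ (w.length ≤ n ∧ w = rep w.length 0) := key
    rw [key']
    constructor
    · rintro ⟨i, hi, rfl⟩
      refine ⟨?_, by simpa using hi, by simp⟩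
      intro x hx
      have := List.eq_of_mem_replicate hx
      subst this
      simp [V4]
    · rintro ⟨_, h1, h2⟩
      exact ⟨w.length, h1, h2⟩
  · rintro x y ⟨i, hi, h⟩
    have hy : y = rep y.length 0 := by
      apply List.eq_replicate_of_mem
      intro b hb
      have : b ∈ rep i 0 := by rw [← h]; exact List.mem_append_right _ hb
      exact List.eq_of_mem_replicate this
    refine ⟨y.length, ?_, hy⟩
    have := congrArg List.length h
    simp only [List.length_append, rep, List.length_replicate] at this
    omega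

lemma S2_suf : S2 ∈ SUF V4 := by
  refine ⟨⟨1, Unit, inferInstance, ⟨fun _ _ => (), (), Set.univ⟩, by simp, ?_⟩, ?_⟩
  · ext w
    simp [S2, DFA.mem_accepts]
  · intro x y h z hz
    exact h z (List.mem_append_right _ hz)

lemma lang_mem_IC_SUF (n : ℕ) : (G0 n).lang ∈ IC SUF := by
  refine ⟨G0 n, ?_, rfl⟩
  intro p hp
  simp only [G0, List.mem_cons, List.not_mem_nil, or_false] at hp
  rcases hp with rfl | rfl
  · exact S1_suf n
  · exact S2_suf

/-! ### The steps of the witness grammar -/

lemma step_bc (n i : ℕ) (hi : i ≤ n) (x1 x3 : Word) :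
    (G0 n).Step (x1 ++ rep i 0 ++ x3) (x1 ++ [1] ++ rep i 0 ++ [2] ++ x3) := by
  refine ⟨(S1 n, {([1], [2])}), ?_, ([1], [2]), by simp, x1, rep i 0, x3, rfl, ⟨i, hi, rfl⟩, rfl⟩
  simp [G0]

lemma step_bd (n : ℕ) (x1 x2 x3 : Word) (h : Over V4 x2) :
    (G0 n).Step (x1 ++ x2 ++ x3) (x1 ++ [1] ++ x2 ++ [3] ++ x3) := by
  refine ⟨(S2, {([1], [3]), ([3], [2])}), ?_, ([1], [3]), by simp, x1, x2, x3, rfl, h, rfl⟩
  simp [G0]

lemma step_dc (n : ℕ) (x1 x2 x3 : Word) (h : Over V4 x2) :
    (G0 n).Step (x1 ++ x2 ++ x3) (x1 ++ [3] ++ x2 ++ [2] ++ x3) := by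
  refine ⟨(S2, {([1], [3]), ([3], [2])}), ?_, ([3], [2]), by simp, x1, x2, x3, rfl, h, rfl⟩
  simp [G0]

lemma step_cases {n : ℕ} {x y : Word} (h : (G0 n).Step x y) :
    ∃ x1 x2 x3 : Word, x = x1 ++ x2 ++ x3 ∧
      ((∃ i ≤ n, x2 = rep i 0 ∧ y = x1 ++ [1] ++ x2 ++ [2] ++ x3) ∨
        y = x1 ++ [1] ++ x2 ++ [3] ++ x3 ∨ y = x1 ++ [3] ++ x2 ++ [2] ++ x3) := by
  obtain ⟨p, hp, q, hq, x1, x2, x3, hx, h2, hy⟩ := h
  simp only [G0, List.mem_cons, List.not_mem_nil, or_false] at hp
  rcases hp with rfl | rfl
  · simp only [Finset.mem_singleton] at hq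
    subst hq
    obtain ⟨i, hi, hi2⟩ := h2
    exact ⟨x1, x2, x3, hx, Or.inl ⟨i, hi, hi2, hy⟩⟩
  · simp only [Finset.mem_insert, Finset.mem_singleton] at hq
    rcases hq with rfl | rfl
    · exact ⟨x1, x2, x3, hx, Or.inr (Or.inl hy)⟩
    · exact ⟨x1, x2, x3, hx, Or.inr (Or.inr hy)⟩

lemma lang_step {n : ℕ} {x y : Word} (hx : x ∈ (G0 n).lang) (h : (G0 n).Step x y) :
    y ∈ (G0 n).lang := by
  obtain ⟨a, ha, hax⟩ := hx
  exact ⟨a, ha, hax.tail h⟩

lemma axiom_mem (n : ℕ) : rep (2 * n) 0 ∈ (G0 n).lang :=
  ⟨rep (2 * n) 0, by simp [G0], Relation.ReflTransGen.refl⟩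

/-- The words `b^p a^n c^p a^n`. -/
lemma wp_mem (n p : ℕ) : rep p 1 ++ rep n 0 ++ (rep p 2 ++ rep n 0) ∈ (G0 n).lang := by
  induction p with
  | zero =>
    have := axiom_mem n
    rw [two_mul, show rep (n + n) 0 = rep n 0 ++ rep n 0 from List.replicate_add _ _ _] at this
    simpa using this
  | succ p ih =>
    have h := lang_step ih (step_bc n n le_rfl (rep p 1) (rep p 2 ++ rep n 0))
    have e : rep p 1 ++ [1] ++ rep n 0 ++ [2] ++ (rep p 2 ++ rep n 0)
        = rep (p + 1) 1 ++ rep n 0 ++ (rep (p + 1) 2 ++ rep n 0) := by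
      rw [show rep (p + 1) 1 = rep p 1 ++ [1] from List.replicate_succ',
        show rep (p + 1) 2 = 2 :: rep p 2 from List.replicate_succ]
      simp
    rwa [e] at h

lemma over_rep {k x : ℕ} (hx : x ∈ V4) : Over V4 (rep k x) := by
  intro y hy
  rw [List.eq_of_mem_replicate hy]
  exact hx

lemma over_append {V : Finset ℕ} {u v : Word} (hu : Over V u) (hv : Over V v) :
    Over V (u ++ v) := by
  intro x hx
  rcases List.mem_append.1 hx with h | h
  · exact hu x h
  · exact hv x h

/-- The words `a^m1 b^s a^m2 d^s`. -/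
lemma y1_mem (n m1 m2 s : ℕ) (hm : m1 + m2 = 2 * n) :
    rep m1 0 ++ (rep s 1 ++ rep m2 0) ++ rep s 3 ∈ (G0 n).lang := by
  induction s with
  | zero =>
    have := axiom_mem n
    rw [← hm, show rep (m1 + m2) 0 = rep m1 0 ++ rep m2 0 from List.replicate_add _ _ _] at this
    simpa using this
  | succ s ih =>
    have ho : Over V4 (rep s 1 ++ rep m2 0 ++ rep s 3) :=
      over_append (over_append (over_rep (by simp [V4])) (over_rep (by simp [V4])))
        (over_rep (by simp [V4]))
    have h := step_bd n (rep m1 0) (rep s 1 ++ rep m2 0 ++ rep s 3) [] ho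
    have e1 : rep m1 0 ++ (rep s 1 ++ rep m2 0 ++ rep s 3) ++ []
        = rep m1 0 ++ (rep s 1 ++ rep m2 0) ++ rep s 3 := by simp
    rw [e1] at h
    have h' := lang_step ih h
    have e : rep m1 0 ++ [1] ++ (rep s 1 ++ rep m2 0 ++ rep s 3) ++ [3] ++ []
        = rep m1 0 ++ (rep (s + 1) 1 ++ rep m2 0) ++ rep (s + 1) 3 := by
      rw [show rep (s + 1) 1 = 1 :: rep s 1 from List.replicate_succ,
        show rep (s + 1) 3 = rep s 3 ++ [3] from List.replicate_succ']
      simp
    rwa [e] at h'

/-- The words `a^m1 d^t b^s a^m2 c^t d^s`. -/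
lemma y_mem (n m1 m2 s t : ℕ) (hm : m1 + m2 = 2 * n) :
    (rep m1 0 ++ rep t 3) ++ (rep s 1 ++ rep m2 0 ++ rep t 2) ++ rep s 3 ∈ (G0 n).lang := by
  induction t with
  | zero =>
    have := y1_mem n m1 m2 s hm
    simpa using this
  | succ t ih =>
    have ho : Over V4 (rep t 3 ++ (rep s 1 ++ rep m2 0 ++ rep t 2)) :=
      over_append (over_rep (by simp [V4])) (over_append
        (over_append (over_rep (by simp [V4])) (over_rep (by simp [V4])))
        (over_rep (by simp [V4])))
    have h := step_dc n (rep m1 0) (rep t 3 ++ (rep s 1 ++ rep m2 0 ++ rep t 2)) (rep s 3) ho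
    have e1 : rep m1 0 ++ (rep t 3 ++ (rep s 1 ++ rep m2 0 ++ rep t 2)) ++ rep s 3
        = (rep m1 0 ++ rep t 3) ++ (rep s 1 ++ rep m2 0 ++ rep t 2) ++ rep s 3 := by simp
    rw [e1] at h
    have h' := lang_step ih h
    have e : rep m1 0 ++ [3] ++ (rep t 3 ++ (rep s 1 ++ rep m2 0 ++ rep t 2)) ++ [2] ++ rep s 3
        = (rep m1 0 ++ rep (t + 1) 3) ++ (rep s 1 ++ rep m2 0 ++ rep (t + 1) 2) ++ rep s 3 := by
      rw [show rep (t + 1) 3 = 3 :: rep t 3 from List.replicate_succ,
        show rep (t + 1) 2 = rep t 2 ++ [2] from List.replicate_succ']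
      simp
    rwa [e] at h'

/-! ### The invariant -/

/-- Some letter `b` and some later letter `c` have at most `n` letters `a` between them. -/
def Near (n : ℕ) (w : Word) : Prop :=
  ∃ p q r : Word, w = p ++ 1 :: (q ++ 2 :: r) ∧ q.count 0 ≤ n

lemma near_insert {n : ℕ} {s t u : Word} (hu : u.count 0 = 0) (h : Near n (s ++ t)) :
    Near n (s ++ u ++ t) := by
  obtain ⟨p, q, r, h, hq⟩ := h
  rcases List.append_eq_append_iff.mp h with ⟨a', hp, ht⟩ | ⟨c', hs, hc⟩
  · subst hp ht
    exact ⟨s ++ u ++ a', q, r, by simp, hq⟩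
  · subst hs
    cases c' with
    | nil =>
      simp only [List.nil_append] at hc
      subst hc
      exact ⟨p ++ u, q, r, by simp, hq⟩
    | cons x c'' =>
      simp only [List.cons_append, List.cons.injEq] at hc
      obtain ⟨rfl, hc⟩ := hc
      rcases List.append_eq_append_iff.mp hc with ⟨a', h1, h2⟩ | ⟨a', h1, h2⟩
      · subst h1
        cases a' with
        | nil =>
          simp only [List.nil_append] at h2
          subst h2
          refine ⟨p, q ++ u, r, by simp, ?_⟩
          rw [List.count_append, hu]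
          simpa using hq
        | cons y a3 =>
          simp only [List.cons_append, List.cons.injEq] at h2
          obtain ⟨rfl, rfl⟩ := h2
          exact ⟨p, q, a3 ++ u ++ t, by simp, hq⟩
      · subst h1 h2
        refine ⟨p, c'' ++ u ++ a', r, by simp, ?_⟩
        simp only [List.count_append, hu] at hq ⊢
        omega

/-- The invariant of the witness language. -/
def Inv (n : ℕ) (w : Word) : Prop :=
  w.count 0 = 2 * n ∧ (w.count 1 + w.count 2 = w.count 3 ∨ Near n w) ∧
    w.count 1 ≤ w.count 2 + w.count 3 ∧ w.count 2 ≤ w.count 1 + w.count 3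

lemma inv_step {n : ℕ} {x y : Word} (hx : Inv n x) (h : (G0 n).Step x y) : Inv n y := by
  obtain ⟨x1, x2, x3, hx', h'⟩ := step_cases h
  subst hx'
  obtain ⟨i1, i2, i3, i4⟩ := hx
  have near_two : ∀ u v : Word, u.count 0 = 0 → v.count 0 = 0 → Near n (x1 ++ x2 ++ x3) →
      Near n (x1 ++ u ++ x2 ++ v ++ x3) := by
    intro u v hu hv hN
    have h1 : Near n (x1 ++ u ++ (x2 ++ x3)) := by
      apply near_insert hu
      simpa using hN
    have h2 : Near n ((x1 ++ u ++ x2) ++ x3) := by simpa using h1
    exact near_insert hv h2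
  have c10 : ([1] : List ℕ).count 0 = 0 := by decide
  have c20 : ([2] : List ℕ).count 0 = 0 := by decide
  have c30 : ([3] : List ℕ).count 0 = 0 := by decide
  have c11 : ([1] : List ℕ).count 1 = 1 := by decide
  have c21 : ([2] : List ℕ).count 1 = 0 := by decide
  have c31 : ([3] : List ℕ).count 1 = 0 := by decide
  have c12 : ([1] : List ℕ).count 2 = 0 := by decide
  have c22 : ([2] : List ℕ).count 2 = 1 := by decide
  have c32 : ([3] : List ℕ).count 2 = 0 := by decide
  have c13 : ([1] : List ℕ).count 3 = 0 := by decide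
  have c23 : ([2] : List ℕ).count 3 = 0 := by decide
  have c33 : ([3] : List ℕ).count 3 = 1 := by decide
  simp only [List.count_append] at i1 i3 i4
  rcases h' with ⟨i, hi, hx2, rfl⟩ | rfl | rfl
  · refine ⟨?_, Or.inr ⟨x1, x2, x3, by simp, by rw [hx2]; simpa using hi⟩, ?_, ?_⟩
    · simp only [List.count_append, c10, c20]
      omega
    · simp only [List.count_append, c11, c21, c12, c22, c13, c23]
      omega
    · simp only [List.count_append, c11, c21, c12, c22, c13, c23]
      omega
  · refine ⟨?_, ?_, ?_, ?_⟩
    · simp only [List.count_append, c10, c30]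
      omega
    · rcases i2 with i2 | i2
      · left
        simp only [List.count_append] at i2
        simp only [List.count_append, c11, c31, c12, c32, c13, c33]
        omega
      · right
        exact near_two [1] [3] (by simp) (by simp) i2
    · simp only [List.count_append, c11, c31, c12, c32, c13, c33]
      omega
    · simp only [List.count_append, c11, c31, c12, c32, c13, c33]
      omega
  · refine ⟨?_, ?_, ?_, ?_⟩
    · simp only [List.count_append, c20, c30]
      omega
    · rcases i2 with i2 | i2
      · left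
        simp only [List.count_append] at i2
        simp only [List.count_append, c21, c31, c22, c32, c23, c33]
        omega
      · right
        exact near_two [3] [2] (by simp) (by simp) i2
    · simp only [List.count_append, c21, c31, c22, c32, c23, c33]
      omega
    · simp only [List.count_append, c21, c31, c22, c32, c23, c33]
      omega

lemma inv_lang {n : ℕ} {w : Word} (h : w ∈ (G0 n).lang) : Inv n w := by
  obtain ⟨a, ha, haw⟩ := h
  simp only [G0, Finset.mem_singleton] at ha
  subst ha
  induction haw with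
  | refl =>
    refine ⟨by simp, Or.inl (by simp [List.count_replicate]), ?_, ?_⟩
    · simp [List.count_replicate]
    · simp [List.count_replicate]
  | tail _ hs ih => exact inv_step ih hs

/-- A word `X A Y` with no `c` in `X A` and no `b` in `A Y` is not `Near n` if `A` contains more
than `n` letters `a`. -/
lemma not_near {n : ℕ} {X A Y : Word} (h1 : 1 ∉ A ++ Y) (h2 : 2 ∉ X ++ A)
    (hA : n < A.count 0) : ¬ Near n (X ++ (A ++ Y)) := by
  rintro ⟨p, q, r, h, hq⟩
  rcases List.append_eq_append_iff.mp h with ⟨a', hp, ht⟩ | ⟨c', hs, hc⟩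
  · apply h1
    rw [ht]
    simp
  · subst hs
    cases c' with
    | nil =>
      simp only [List.nil_append] at hc
      apply h1
      rw [← hc]
      simp
    | cons x c'' =>
      simp only [List.cons_append, List.cons.injEq] at hc
      obtain ⟨rfl, hc⟩ := hc
      rw [← List.append_assoc] at hc
      rcases List.append_eq_append_iff.mp hc with ⟨a', h3, h4⟩ | ⟨a', h3, h4⟩
      · cases a' with
        | nil =>
          simp only [List.append_nil] at h3
          rw [← h3] at hq
          simp only [List.count_append] at hq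
          omega
        | cons y a3 =>
          simp only [List.cons_append, List.cons.injEq] at h4
          obtain ⟨rfl, _⟩ := h4
          apply h2
          have : (2 : ℕ) ∈ c'' ++ A := by rw [h3]; simp
          rcases List.mem_append.1 this with h | h
          · simp [h]
          · simp [h]
      · rw [h3] at hq
        simp only [List.count_append] at hq
        omega

/-! ### The main argument -/

/-- The last step of a derivation. -/
lemma last_step {G : Grammar} {w : Word} (hw : w ∈ G.lang) (hax : w ∉ G.axs) :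
    ∃ y ∈ G.lang, y ≠ w ∧ G.Step y w := by
  obtain ⟨a, ha, haw⟩ := hw
  induction haw with
  | refl => exact absurd ha hax
  | @tail y z hay hyz ih =>
    by_cases h : y = z
    · subst h
      exact ih hax
    · exact ⟨y, ⟨a, ha, hay⟩, h, hyz⟩

/-- Shape of `x2` when `b^p a^n c^p a^n = b^i b^r x2 c^r x3`. -/
lemma shape {n p i r : ℕ} {x2 x3 : Word} (hn : 1 ≤ n) (hr : 1 ≤ r)
    (h : rep p 1 ++ rep n 0 ++ (rep p 2 ++ rep n 0)
      = rep i 1 ++ rep r 1 ++ x2 ++ rep r 2 ++ x3) :
    ∃ s t, x2 = rep s 1 ++ rep n 0 ++ rep t 2 := by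
  have hir : i + r ≤ p := by
    by_contra hcon
    push Not at hcon
    -- the letter at position `p` is `0` on the left and `1` on the right
    have hl : (rep p 1 ++ rep n 0 ++ (rep p 2 ++ rep n 0))[p]? = some 0 := by
      rw [List.append_assoc, List.getElem?_append_right (by simp)]
      simp only [rep, List.length_replicate, Nat.sub_self]
      rw [List.getElem?_append_left (by simp only [List.length_replicate]; omega)]
      rw [List.getElem?_replicate, if_pos (by omega)]
    have hrr : (rep i 1 ++ rep r 1 ++ x2 ++ rep r 2 ++ x3)[p]? = some 1 := by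
      have e : rep i 1 ++ rep r 1 ++ x2 ++ rep r 2 ++ x3
          = rep (i + r) 1 ++ (x2 ++ rep r 2 ++ x3) := by
        rw [show rep (i + r) 1 = rep i 1 ++ rep r 1 from List.replicate_add _ _ _]
        simp only [List.append_assoc]
      rw [e, List.getElem?_append_left (by simpa using hcon)]
      rw [List.getElem?_replicate, if_pos hcon]
    rw [h, hrr] at hl
    simp at hl
  obtain ⟨s, rfl⟩ : ∃ s, p = i + r + s := ⟨p - (i + r), by omega⟩
  have h' : rep s 1 ++ (rep n 0 ++ (rep (i + r + s) 2 ++ rep n 0))
      = x2 ++ (rep r 2 ++ x3) := by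
    have e1 : rep (i + r + s) 1 ++ rep n 0 ++ (rep (i + r + s) 2 ++ rep n 0)
        = (rep i 1 ++ rep r 1) ++ (rep s 1 ++ (rep n 0 ++ (rep (i + r + s) 2 ++ rep n 0))) := by
      have e0 : rep (i + r + s) 1 = rep i 1 ++ rep r 1 ++ rep s 1 := by
        simp only [rep, List.replicate_add]
      rw [e0]
      simp only [List.append_assoc]
    have e2 : rep i 1 ++ rep r 1 ++ x2 ++ rep r 2 ++ x3
        = (rep i 1 ++ rep r 1) ++ (x2 ++ (rep r 2 ++ x3)) := by
      simp only [List.append_assoc]
    rw [e1, e2] at h
    exact List.append_cancel_left h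
  obtain ⟨r', rfl⟩ : ∃ r', r = r' + 1 := ⟨r - 1, by omega⟩
  obtain ⟨n', rfl⟩ : ∃ n', n = n' + 1 := ⟨n - 1, by omega⟩
  have hr2 : rep (r' + 1) 2 ++ x3 = 2 :: (rep r' 2 ++ x3) := by
    rw [show rep (r' + 1) 2 = 2 :: rep r' 2 from List.replicate_succ]
    rfl
  rcases List.append_eq_append_iff.mp h' with ⟨a', h1, h2⟩ | ⟨a', h1, h2⟩
  · -- `x2 = b^s a'`
    rcases List.append_eq_append_iff.mp h2 with ⟨a'', h3, h4⟩ | ⟨a'', h3, h4⟩
    · -- `a' = a^n a''`
      rcases List.append_eq_append_iff.mp h4 with ⟨a3, h5, h6⟩ | ⟨a3, h5, h6⟩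
      · -- `a'' = c^p a3`, `a^n = a3 (c^r x3)`
        exfalso
        have : (2 : ℕ) ∈ rep (n' + 1) 0 := by
          rw [h6, hr2]
          simp
        have := List.eq_of_mem_replicate this
        omega
      · -- `c^p = a'' a3`
        have : a'' = rep a''.length 2 := by
          apply List.eq_replicate_of_mem
          intro b hb
          have hb' : b ∈ rep (i + (r' + 1) + s) 2 := by
            rw [h5]
            exact List.mem_append_left _ hb
          exact List.eq_of_mem_replicate hb'
        refine ⟨s, a''.length, ?_⟩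
        rw [h1, h3, ← this]
        simp only [List.append_assoc]
    · -- `a^n = a' a''`, `c^r x3 = a'' c^p a^n`
      cases a'' with
      | nil =>
        simp only [List.append_nil] at h3
        refine ⟨s, 0, ?_⟩
        rw [h1, ← h3]
        simp
      | cons y a3 =>
        exfalso
        rw [hr2] at h4
        simp only [List.cons_append, List.cons.injEq] at h4
        have hy : y ∈ rep (n' + 1) 0 := by
          rw [h3]
          simp
        have := List.eq_of_mem_replicate hy
        omega
  · -- `b^s = x2 a'`, `c^r x3 = a' a^n …`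
    exfalso
    cases a' with
    | nil =>
      rw [hr2, show rep (n' + 1) 0 = 0 :: rep n' 0 from List.replicate_succ] at h2
      simp at h2
    | cons y a3 =>
      rw [hr2] at h2
      simp only [List.cons_append, List.cons.injEq] at h2
      have hy : y ∈ rep s 1 := by
        rw [h1]
        simp
      have := List.eq_of_mem_replicate hy
      omega

/-- The pumping step. -/
lemma pump {n : ℕ} {Z : Type} [Fintype Z] (M : DFA ℕ Z) (hZ : Fintype.card Z ≤ n) (s t : ℕ)
    (h : rep s 1 ++ rep n 0 ++ rep t 2 ∈ M.accepts) :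
    ∃ e, 1 ≤ e ∧ e ≤ n ∧ rep s 1 ++ rep (n + e) 0 ++ rep t 2 ∈ M.accepts := by
  have hcard : Fintype.card Z < Fintype.card (Fin (n + 1)) := by
    simp only [Fintype.card_fin]
    omega
  obtain ⟨j1, j2, hne, heq⟩ :=
    Fintype.exists_ne_map_eq_of_card_lt
      (fun j : Fin (n + 1) => M.evalFrom M.start (rep s 1 ++ rep (j : ℕ) 0)) hcard
  have main : ∀ i1 i2 : ℕ, i1 < i2 → i2 ≤ n →
      M.evalFrom M.start (rep s 1 ++ rep i1 0) = M.evalFrom M.start (rep s 1 ++ rep i2 0) →
      ∃ e, 1 ≤ e ∧ e ≤ n ∧ rep s 1 ++ rep (n + e) 0 ++ rep t 2 ∈ M.accepts := by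
    intro i1 i2 hlt hle hE
    refine ⟨i2 - i1, by omega, by omega, ?_⟩
    rw [DFA.mem_accepts] at h ⊢
    have e1 : rep s 1 ++ rep n 0 ++ rep t 2
        = (rep s 1 ++ rep i1 0) ++ (rep (n - i1) 0 ++ rep t 2) := by
      have : n = i1 + (n - i1) := by omega
      conv_lhs => rw [this]
      simp only [rep, List.replicate_add, List.append_assoc]
    have e2 : rep s 1 ++ rep (n + (i2 - i1)) 0 ++ rep t 2
        = (rep s 1 ++ rep i2 0) ++ (rep (n - i1) 0 ++ rep t 2) := by
      have : n + (i2 - i1) = i2 + (n - i1) := by omega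
      rw [this]
      simp only [rep, List.replicate_add, List.append_assoc]
    unfold DFA.eval at h ⊢
    rw [e1, DFA.evalFrom_of_append] at h
    rw [e2, DFA.evalFrom_of_append, ← hE]
    exact h
  have hne' : (j1 : ℕ) ≠ (j2 : ℕ) := fun hh => hne (Fin.ext hh)
  rcases lt_or_gt_of_ne hne' with hlt | hlt
  · exact main j1 j2 hlt (by have := j2.2; omega) heq
  · exact main j2 j1 hlt (by have := j1.2; omega) heq.symm

lemma lang_not_mem (n : ℕ) (hn : 1 ≤ n) : (G0 n).lang ∉ IC (REGZ n) := by
  rintro ⟨G, hG, hL⟩
  -- a bound for the lengths of the axioms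
  set p : ℕ := G.axs.sup List.length + 1 with hp
  have hw := wp_mem n p
  set w : Word := rep p 1 ++ rep n 0 ++ (rep p 2 ++ rep n 0) with hwdef
  have hax : w ∉ G.axs := by
    intro h
    have h1 : w.length ≤ G.axs.sup List.length := Finset.le_sup (f := List.length) h
    have h2 : p ≤ w.length := by
      rw [hwdef]
      simp only [List.length_append, rep, List.length_replicate]
      omega
    omega
  have hwG : w ∈ G.lang := by rw [← hL]; exact hw
  obtain ⟨y, hyG, hyw, hstep⟩ := last_step hwG hax
  have hyL : y ∈ (G0 n).lang := by rw [hL]; exact hyG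
  have hInv := inv_lang hyL
  obtain ⟨c, hc, ⟨u, v⟩, hq, x1, x2, x3, hy, h2, hwx⟩ := hstep
  simp only at hwx
  subst hy
  -- letter counts
  have c0 : w.count 0 = 2 * n := by
    rw [hwdef]
    simp [List.count_append, List.count_replicate]
    omega
  have c3 : w.count 3 = 0 := by
    rw [hwdef]
    simp [List.count_append, List.count_replicate]
  have c12 : w.count 1 = w.count 2 := by
    rw [hwdef]
    simp [List.count_append, List.count_replicate]
  obtain ⟨k0, _, k1, k2⟩ := hInv
  rw [hwx] at c0 c3 c12
  simp only [List.count_append] at c0 c3 c12 k0 k1 k2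
  have u0 : u.count 0 = 0 := by omega
  have v0 : v.count 0 = 0 := by omega
  have u3 : u.count 3 = 0 := by omega
  have v3 : v.count 3 = 0 := by omega
  have huv : u.count 1 + v.count 1 = u.count 2 + v.count 2 := by omega
  have hmem : ∀ x ∈ w, x = 0 ∨ x = 1 ∨ x = 2 := by
    intro x hx
    rw [hwdef] at hx
    simp only [List.mem_append, rep, List.mem_replicate] at hx
    rcases hx with (hx | hx) | (hx | hx)
    · exact Or.inr (Or.inl hx.2)
    · exact Or.inl hx.2
    · exact Or.inr (Or.inr hx.2)
    · exact Or.inl hx.2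
  -- in `w`, no `2` precedes a `1`, and a `1` and a later `2` are not adjacent up to non-`0`s
  have order : ∀ P Q R : Word, w ≠ P ++ 2 :: (Q ++ 1 :: R) := by
    intro P Q R h
    have h' : (rep p 1 ++ rep n 0) ++ (rep p 2 ++ rep n 0) = P ++ 2 :: (Q ++ 1 :: R) := by
      rw [← h]
    rcases List.append_eq_append_iff.mp h' with ⟨a', h3, h4⟩ | ⟨a', h3, h4⟩
    · have : (1 : ℕ) ∈ rep p 2 ++ rep n 0 := by
        rw [h4]; simp
      simp only [List.mem_append, rep, List.mem_replicate] at this
      omega
    · cases a' with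
      | nil =>
        simp only [List.nil_append] at h4
        have : (1 : ℕ) ∈ rep p 2 ++ rep n 0 := by
          rw [← h4]; simp
        simp only [List.mem_append, rep, List.mem_replicate] at this
        omega
      | cons z a3 =>
        simp only [List.cons_append, List.cons.injEq] at h4
        obtain ⟨rfl, _⟩ := h4
        have : (2 : ℕ) ∈ rep p 1 ++ rep n 0 := by
          rw [h3]; simp
        simp only [List.mem_append, rep, List.mem_replicate] at this
        omega
  have gap : ∀ P Q R : Word, w = P ++ 1 :: (Q ++ 2 :: R) → 1 ≤ Q.count 0 := by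
    intro P Q R h
    by_contra hcon
    have hnear : Near (n - 1) (rep p 1 ++ (rep n 0 ++ (rep p 2 ++ rep n 0))) := by
      refine ⟨P, Q, R, ?_, by omega⟩
      rw [← h, hwdef]
      simp only [List.append_assoc]
    refine not_near ?_ ?_ ?_ hnear
    · simp only [List.mem_append, rep, List.mem_replicate]
      omega
    · simp only [List.mem_append, rep, List.mem_replicate]
      omega
    · simp [rep]
      omega
  -- `v` contains no `1`
  have v1 : v.count 1 = 0 := by
    by_contra hv1
    have hv1' : (1 : ℕ) ∈ v := List.count_pos_iff.1 (Nat.pos_of_ne_zero hv1)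
    obtain ⟨va, vb, hvab⟩ := List.append_of_mem hv1'
    -- some `2` occurs in `u` or `v`
    have : 0 < u.count 2 ∨ 0 < v.count 2 := by omega
    rcases this with h2' | h2'
    · obtain ⟨ua, ub, huab⟩ := List.append_of_mem (List.count_pos_iff.1 h2')
      apply order (x1 ++ ua) (ub ++ x2 ++ va) (vb ++ x3)
      rw [hwx, huab, hvab]
      simp
    · have hv2 : (2 : ℕ) ∈ v := List.count_pos_iff.1 h2'
      rw [hvab] at hv2
      rcases List.mem_append.1 hv2 with h | h
      · obtain ⟨va1, va2, hva⟩ := List.append_of_mem h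
        apply order (x1 ++ u ++ x2 ++ va1) va2 (vb ++ x3)
        rw [hwx, hvab, hva]
        simp
      · rcases List.mem_cons.1 h with h | h
        · omega
        · obtain ⟨vb1, vb2, hvb⟩ := List.append_of_mem h
          have := gap (x1 ++ u ++ x2 ++ va) vb1 (vb2 ++ x3) (by
            rw [hwx, hvab, hvb]
            simp)
          rw [hvab, hvb] at v0
          simp only [List.count_append, List.count_cons] at v0
          omega
  have u1 : 0 < u.count 1 := by
    by_contra hcon
    have e1 : u.count 1 = 0 := by omega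
    have e2 : u.count 2 = 0 := by omega
    have e3 : v.count 2 = 0 := by omega
    have hu : u = [] := by
      rw [List.eq_nil_iff_forall_not_mem]
      intro x hx
      have hxw : x ∈ w := by rw [hwx]; simp [hx]
      have hpos := List.count_pos_iff.2 hx
      rcases hmem x hxw with rfl | rfl | rfl <;> omega
    have hv : v = [] := by
      rw [List.eq_nil_iff_forall_not_mem]
      intro x hx
      have hxw : x ∈ w := by rw [hwx]; simp [hx]
      have hpos := List.count_pos_iff.2 hx
      rcases hmem x hxw with rfl | rfl | rfl <;> omega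
    apply hyw
    rw [hwx, hu, hv]
    simp
  have hu1' : (1 : ℕ) ∈ u := List.count_pos_iff.1 u1
  obtain ⟨ua, ub, huab⟩ := List.append_of_mem hu1'
  have u2 : u.count 2 = 0 := by
    by_contra hcon
    have hu2 : (2 : ℕ) ∈ u := List.count_pos_iff.1 (Nat.pos_of_ne_zero hcon)
    rw [huab] at hu2
    rcases List.mem_append.1 hu2 with h | h
    · obtain ⟨ua1, ua2, hua⟩ := List.append_of_mem h
      apply order (x1 ++ ua1) ua2 (ub ++ x2 ++ v ++ x3)
      rw [hwx, huab, hua]
      simp
    · rcases List.mem_cons.1 h with h | h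
      · omega
      · obtain ⟨ub1, ub2, hub⟩ := List.append_of_mem h
        have := gap (x1 ++ ua) ub1 (ub2 ++ x2 ++ v ++ x3) (by
          rw [hwx, huab, hub]
          simp)
        rw [huab, hub] at u0
        simp only [List.count_append, List.count_cons] at u0
        omega
  obtain ⟨r, hr⟩ : ∃ r, r = u.count 1 := ⟨_, rfl⟩
  have hr1 : 1 ≤ r := by omega
  have hu : u = rep r 1 := by
    have : u = rep u.length 1 := by
      apply List.eq_replicate_of_mem
      intro x hx
      have hxw : x ∈ w := by rw [hwx]; simp [hx]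
      have hpos := List.count_pos_iff.2 hx
      rcases hmem x hxw with rfl | rfl | rfl
      · omega
      · rfl
      · omega
    have e : r = u.length := by
      rw [hr]
      conv_lhs => rw [this]
      simp [rep]
    rw [e]
    exact this
  have hv : v = rep r 2 := by
    have : v = rep v.length 2 := by
      apply List.eq_replicate_of_mem
      intro x hx
      have hxw : x ∈ w := by rw [hwx]; simp [hx]
      have hpos := List.count_pos_iff.2 hx
      rcases hmem x hxw with rfl | rfl | rfl
      · omega
      · omega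
      · rfl
    have e : r = v.length := by
      have e1 : r = v.count 2 := by omega
      rw [e1]
      conv_lhs => rw [this]
      simp [rep]
    rw [e]
    exact this
  -- `x1` consists of `1`s only
  have hx1 : x1 = rep x1.length 1 := by
    apply List.eq_replicate_of_mem
    intro x hx
    obtain ⟨a1, a2, ha⟩ := List.append_of_mem hx
    have hxw : x ∈ w := by rw [hwx]; simp [hx]
    rcases hmem x hxw with rfl | rfl | rfl
    · -- a `0` before a `1`
      exfalso
      have h' : rep p 1 ++ (rep n 0 ++ (rep p 2 ++ rep n 0))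
          = a1 ++ 0 :: (a2 ++ ua ++ 1 :: (ub ++ x2 ++ v ++ x3)) := by
        have : w = a1 ++ 0 :: (a2 ++ ua ++ 1 :: (ub ++ x2 ++ v ++ x3)) := by
          rw [hwx, ha, huab]
          simp
        rw [← this, hwdef]
        simp only [List.append_assoc]
      rcases List.append_eq_append_iff.mp h' with ⟨a', h3, h4⟩ | ⟨a', h3, h4⟩
      · have : (1 : ℕ) ∈ rep n 0 ++ (rep p 2 ++ rep n 0) := by
          rw [h4]; simp
        simp only [List.mem_append, rep, List.mem_replicate] at this
        omega
      · cases a' with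
        | nil =>
          simp only [List.nil_append] at h4
          have : (1 : ℕ) ∈ rep n 0 ++ (rep p 2 ++ rep n 0) := by
            rw [← h4]; simp
          simp only [List.mem_append, rep, List.mem_replicate] at this
          omega
        | cons z a3 =>
          simp only [List.cons_append, List.cons.injEq] at h4
          obtain ⟨rfl, _⟩ := h4
          have : (0 : ℕ) ∈ rep p 1 := by
            rw [h3]; simp
          simp only [rep, List.mem_replicate] at this
          omega
    · rfl
    · exfalso
      apply order a1 (a2 ++ ua) (ub ++ x2 ++ v ++ x3)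
      rw [hwx, ha, huab]
      simp
  obtain ⟨s, t, hx2⟩ : ∃ s t, x2 = rep s 1 ++ rep n 0 ++ rep t 2 := by
    apply shape (p := p) (i := x1.length) (r := r) (x3 := x3) hn hr1
    rw [← hwdef, hwx, hu, hv, ← hx1]
  -- pumping
  obtain ⟨Z, _, M, hZ, hS⟩ := hG c hc
  rw [hS, hx2] at h2
  obtain ⟨hover, hacc⟩ := h2
  obtain ⟨e, he1, he2, hacc'⟩ := pump M hZ s t hacc
  have hS' : rep s 1 ++ rep (n + e) 0 ++ rep t 2 ∈ c.1 := by
    rw [hS]
    refine ⟨?_, hacc'⟩
    intro x hx
    apply hover
    simp only [List.mem_append, rep, List.mem_replicate] at hx ⊢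
    omega
  have hy' := y_mem n (n - e) (n + e) s t (by omega)
  rw [hL] at hy'
  have hz : (rep (n - e) 0 ++ rep t 3) ++ u ++ (rep s 1 ++ rep (n + e) 0 ++ rep t 2) ++ v
      ++ rep s 3 ∈ G.lang := by
    obtain ⟨a, ha, hay⟩ := hy'
    exact ⟨a, ha, hay.tail ⟨c, hc, (u, v), hq, _, _, _, rfl, hS', rfl⟩⟩
  rw [← hL] at hz
  obtain ⟨_, hI, _, _⟩ := inv_lang hz
  rcases hI with hI | hI
  · rw [hu, hv] at hI
    simp [List.count_append, List.count_replicate] at hI
    omega
  · have e1 : (rep (n - e) 0 ++ rep t 3) ++ u ++ (rep s 1 ++ rep (n + e) 0 ++ rep t 2) ++ v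
        ++ rep s 3 = ((rep (n - e) 0 ++ rep t 3) ++ u ++ rep s 1)
          ++ (rep (n + e) 0 ++ (rep t 2 ++ v ++ rep s 3)) := by
      simp only [List.append_assoc]
    rw [e1] at hI
    refine not_near ?_ ?_ ?_ hI
    · rw [hv]
      simp only [List.mem_append, rep, List.mem_replicate]
      omega
    · rw [hu]
      simp only [List.mem_append, rep, List.mem_replicate]
      omega
    · simp [rep]
      omega

/-- For every `n ≥ 2` there is a language in `IC(SUF)` that is not in `IC(REG^Z_n)`. -/
theorem result : ∀ n : ℕ, 2 ≤ n → ∃ L : Set Word, L ∈ IC SUF ∧ L ∉ IC (REGZ n) := by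
  intro n hn
  exact ⟨(G0 n).lang, lang_mem_IC_SUF n, lang_not_mem n (by omega)⟩

end Pool.Agent.Results.MP_47ab97_lc.SufNotStateBounded
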